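import Pool.Agent.Y771.KF.MSN

/-!
# `J`, `D J`, `D² J` as functions of the nome on the punctured disc
-/

set_option autoImplicit false

open Filter Topology Height Height.AdmissibleAbsValues MvPolynomial Pool.Agent.Y124 Pool.Agent.TH21.MS
open Pool.Agent.Y771.KF

namespace Pool.Agent.Y771.JQ

/-- Eisenstein series of weight 4 in the nome -/
noncomputable def qE4 (q : ℂ) : ℂ := 1 + 240 * ∑' m : ℕ, ((ArithmeticFunction.sigma 3 (m + 1) : ℕ) : ℂ) * q ^ (m + 1)

/-- Eisenstein series of weight 6 in the nome -/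
noncomputable def qE6 (q : ℂ) : ℂ := 1 - 504 * ∑' m : ℕ, ((ArithmeticFunction.sigma 5 (m + 1) : ℕ) : ℂ) * q ^ (m + 1)

/-- the modular invariant in the nome -/
noncomputable def qJ (q : ℂ) : ℂ := 1728 * qE4 q ^ 3 / (qE4 q ^ 3 - qE6 q ^ 2)

/-- `J`, `D J`, `D² J` with `D = q d/dq` -/
noncomputable def three (q : ℂ) : Fin 3 → ℂ :=
  ![qJ q, q * deriv qJ q, q * deriv (fun u => u * deriv qJ u) q]

lemma qJ_exp (τ : ℂ) : qJ (Complex.exp (2 * (Real.pi : ℂ) * Complex.I * τ)) = jj τ := rfl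

lemma twopi_ne : (2 * (Real.pi : ℂ) * Complex.I) ≠ 0 := by simp [Real.pi_ne_zero, Complex.I_ne_zero]

lemma exp_zC {q : ℂ} (hq : q ≠ 0) : Complex.exp (2 * (Real.pi : ℂ) * Complex.I * zC q) = q := by
  unfold zC
  rw [mul_div_cancel₀ _ twopi_ne, Complex.exp_log hq]

lemma qJ_eq {q : ℂ} (hq : q ≠ 0) : qJ q = jj (zC q) := by
  rw [← qJ_exp, exp_zC hq]

lemma zC_im' (x : ℂ) (hx0 : x ≠ 0) (hx1 : ‖x‖ < 1) : 0 < (zC x).im := by
  have h1 : (zC x).im = -(Real.log ‖x‖) / (2 * Real.pi) := by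
    have hpi : (Real.pi : ℂ) ≠ 0 := by exact_mod_cast Real.pi_ne_zero
    have h2 : zC x = -(Complex.I * Complex.log x) / ((2 * Real.pi : ℝ) : ℂ) := by
      unfold zC
      push_cast
      field_simp
      rw [Complex.I_sq]
      ring
    rw [h2, Complex.div_ofReal_im]
    simp [Complex.mul_im, Complex.log_re]
  rw [h1]
  have h3 : Real.log ‖x‖ < 0 := Real.log_neg (norm_pos_iff.2 hx0) hx1
  have := Real.pi_pos
  apply div_pos (by linarith) (by positivity)

lemma zC_half {q : ℂ} (hq : q ≠ 0) :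
    Complex.exp (2 * (Real.pi : ℂ) * Complex.I * (zC (-q) + 1 / 2)) = q := by
  have e : 2 * (Real.pi : ℂ) * Complex.I * (zC (-q) + 1 / 2) =
      2 * (Real.pi : ℂ) * Complex.I * zC (-q) + (Real.pi : ℂ) * Complex.I := by ring
  rw [e, Complex.exp_add, exp_zC (neg_ne_zero.mpr hq), Complex.exp_pi_mul_I]
  ring

/-- the punctured disc -/
def punct : Set ℂ := {q | q ≠ 0 ∧ ‖q‖ < 1}

lemma punct_open : IsOpen punct := by
  have h1 : IsOpen {q : ℂ | q ≠ 0} := isOpen_ne
  have h2 : IsOpen {q : ℂ | ‖q‖ < 1} := isOpen_lt continuous_norm continuous_const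
  exact h1.inter h2

lemma punct_preconn : IsPreconnected punct := by
  have h1 : punct = (fun τ : ℂ => Complex.exp (2 * (Real.pi : ℂ) * Complex.I * τ)) '' {τ : ℂ | 0 < τ.im} := by
    ext q
    constructor
    · rintro ⟨h0, h1⟩
      exact ⟨zC q, zC_im' q h0 h1, exp_zC h0⟩
    · rintro ⟨τ, hτ, rfl⟩
      refine ⟨Complex.exp_ne_zero _, ?_⟩
      have hτ' : 0 < τ.im := hτ
      rw [Complex.norm_exp, Real.exp_lt_one_iff]
      have := Real.pi_pos
      simp only [Complex.mul_re, Complex.mul_im, Complex.re_ofNat, Complex.im_ofNat, Complex.ofReal_re,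
        Complex.ofReal_im, Complex.I_re, Complex.I_im]
      ring_nf
      nlinarith [mul_pos this hτ']
  rw [h1]
  apply IsPreconnected.image
  · exact (convex_halfSpace_im_gt 0).isPreconnected
  · fun_prop

lemma qJ_an {q : ℂ} (hq : q ∈ punct) : AnalyticAt ℂ qJ q := by
  obtain ⟨h0, h1⟩ := hq
  have hev : ∀ᶠ u in 𝓝 q, u ≠ 0 := isOpen_ne.mem_nhds h0
  by_cases hs : q ∈ Complex.slitPlane
  · have hz : AnalyticAt ℂ zC q := by
      unfold zC
      exact (analyticAt_clog hs).div analyticAt_const twopi_ne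
    have h2 : AnalyticAt ℂ (fun u => jj (zC u)) q :=
      AnalyticAt.fun_comp (g := jj) (f := zC) (jj_an _ (zC_im' q h0 h1)) hz
    exact h2.congr (hev.mono fun u hu => (qJ_eq hu).symm)
  · have hs' : -q ∈ Complex.slitPlane := by
      rw [Complex.mem_slitPlane_iff, not_or, not_lt, not_not] at hs
      rw [Complex.mem_slitPlane_iff]
      left
      rw [Complex.neg_re]
      rcases hs.1.lt_or_eq with h2 | h2
      · linarith
      · exact absurd (Complex.ext h2 hs.2) h0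
    have hz : AnalyticAt ℂ (fun u => zC (-u) + 1 / 2) q := by
      have h3 : AnalyticAt ℂ zC (-q) := by
        unfold zC
        exact (analyticAt_clog hs').div analyticAt_const twopi_ne
      exact (AnalyticAt.fun_comp (g := zC) (f := fun u => -u) h3 analyticAt_id.neg).add analyticAt_const
    have him : 0 < (zC (-q) + 1 / 2).im := by
      have := zC_im' (-q) (neg_ne_zero.mpr h0) (by rwa [norm_neg])
      simpa using this
    have h2 : AnalyticAt ℂ (fun u => jj (zC (-u) + 1 / 2)) q :=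
      AnalyticAt.fun_comp (g := jj) (f := fun u => zC (-u) + 1 / 2) (jj_an _ him) hz
    refine h2.congr (hev.mono fun u hu => ?_)
    show jj (zC (-u) + 1 / 2) = qJ u
    rw [← qJ_exp, zC_half hu]

theorem three_an (i : Fin 3) : AnalyticOnNhd ℂ (fun x => three x i) punct := by
  intro x hx
  have h1 := qJ_an hx
  have h2 : AnalyticAt ℂ (fun u => u * deriv qJ u) x := analyticAt_id.mul h1.deriv
  fin_cases i
  · exact h1
  · exact h2
  · exact analyticAt_id.mul h2.deriv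

lemma slit_sub {x : ℂ} (hx : x ∈ slitDisc) : x ∈ punct :=
  ⟨Complex.slitPlane_ne_zero hx.1, mem_ball_zero_iff.1 hx.2⟩

lemma slit_open : IsOpen slitDisc := Complex.isOpen_slitPlane.inter Metric.isOpen_ball

lemma zC_hasDeriv {x : ℂ} (hx : x ∈ slitDisc) :
    HasDerivAt zC (x⁻¹ / (2 * (Real.pi : ℂ) * Complex.I)) x := by
  unfold zC
  exact (Complex.hasDerivAt_log hx.1).div_const _

lemma D_one {x : ℂ} (hx : x ∈ slitDisc) :
    x * deriv qJ x = deriv jj (zC x) / (2 * (Real.pi : ℂ) * Complex.I) := by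
  have hx0 : x ≠ 0 := (slit_sub hx).1
  have hev : qJ =ᶠ[𝓝 x] fun u => jj (zC u) :=
    Filter.mem_of_superset (isOpen_ne.mem_nhds hx0) fun _ hu => qJ_eq hu
  have h1 := (jj_an (zC x) (zC_im' x hx0 (slit_sub hx).2)).differentiableAt.hasDerivAt
  have h2 := h1.comp x (zC_hasDeriv hx)
  have h3 : deriv qJ x = deriv jj (zC x) * (x⁻¹ / (2 * (Real.pi : ℂ) * Complex.I)) := by
    rw [hev.deriv_eq]
    exact h2.deriv
  rw [h3]
  have := twopi_ne
  field_simp

lemma D_two {x : ℂ} (hx : x ∈ slitDisc) :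
    x * deriv (fun u => u * deriv qJ u) x =
      deriv (deriv jj) (zC x) / (2 * (Real.pi : ℂ) * Complex.I) ^ 2 := by
  have hx0 : x ≠ 0 := (slit_sub hx).1
  have hev : (fun u => u * deriv qJ u) =ᶠ[𝓝 x]
      fun u => deriv jj (zC u) / (2 * (Real.pi : ℂ) * Complex.I) :=
    Filter.mem_of_superset (slit_open.mem_nhds hx) fun _ hu => D_one hu
  have h1 := (jj_an (zC x) (zC_im' x hx0 (slit_sub hx).2)).deriv.differentiableAt.hasDerivAt
  have h2 := (h1.comp x (zC_hasDeriv hx)).div_const (2 * (Real.pi : ℂ) * Complex.I)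
  rw [hev.deriv_eq]
  have h3 : deriv (fun u => deriv jj (zC u) / (2 * (Real.pi : ℂ) * Complex.I)) x =
      deriv (deriv jj) (zC x) * (x⁻¹ / (2 * (Real.pi : ℂ) * Complex.I)) /
        (2 * (Real.pi : ℂ) * Complex.I) := h2.deriv
  rw [h3]
  have := twopi_ne
  field_simp

theorem three_ind : AIndepS (fun (i : Fin 3) (x : ℂ) => three x i) punct := by
  intro P hP
  have h1 := fourC_ind (rename (Option.map (Fin.succ : Fin 3 → Fin 4)) P) (fun t ht => by
    rw [eval_rename]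
    have h2 := hP t (slit_sub ht)
    have h3 : ((fun o : Option (Fin 4) => o.elim t fun y => fourC t y) ∘
        (Option.map (Fin.succ : Fin 3 → Fin 4))) = fun o : Option (Fin 3) => o.elim t fun y => three t y := by
      funext o
      cases o with
      | none => rfl
      | some i =>
        show fourC t (Fin.succ i) = three t i
        fin_cases i
        · exact (qJ_eq (slit_sub ht).1).symm
        · exact (D_one ht).symm
        · exact (D_two ht).symm
    rw [h3]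
    exact h2)
  have hinj : Function.Injective (Option.map (Fin.succ : Fin 3 → Fin 4)) :=
    Option.map_injective (Fin.succ_injective 3)
  exact rename_injective _ hinj (by rw [h1, map_zero])

variable {k : Type} [Field k] [NumberField k]

/-- the `3 n + 1` numbers -/
noncomputable def num {n : ℕ} (σ : k →+* ℂ) (x : Fin n → k) (i : Option (Fin n × Fin 3)) : ℂ :=
  i.elim (Real.pi : ℂ) fun q => three (σ (x q.1)) q.2

/-- the exceptional tuples -/
def Exc (σ : k →+* ℂ) (n d : ℕ) (K : Set ℂ) (A B T : ℝ) : Set (Fin n → k) :=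
  {x | (∀ l, σ (x l) ∈ K ∧ mulHeight₁ (x l) ≤ T) ∧
    ∃ P : MvPolynomial (Option (Fin n × Fin 3)) k, P ≠ 0 ∧ (∀ i, P.degreeOf i ≤ d) ∧
      (∀ e, mulHeight₁ (P.coeff e) ≤ T ^ A) ∧ ‖eval₂ σ (num σ x) P‖ ≤ T ^ (-B)}

theorem main (σ : k →+* ℂ) (n d : ℕ) (hn : 1 ≤ n) (K : Set ℂ) (hK : IsCompact K)
    (hKS : ∀ x ∈ K, x ≠ 0 ∧ ‖x‖ < 1) (A ε : ℝ) (hε : 0 < ε) :
    ∃ (D : ℕ) (B C : ℝ), ∀ T : ℝ, 1 ≤ T →
      (∃ Φ : Finset (MvPolynomial (Fin n) k), (Φ.card : ℝ) ≤ C * T ^ ε ∧ (∀ Q ∈ Φ, Q ≠ 0 ∧ Q.totalDegree ≤ D) ∧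
        ∀ t ∈ Exc σ n d K A B T, ∃ Q ∈ Φ, eval t Q = 0) ∧ (Exc σ n d K A B T).Finite ∧
      ((Exc σ n d K A B T).ncard : ℝ) ≤ C * T ^ ε * ({x : k | mulHeight₁ x ≤ T}.ncard : ℝ) ^ (n - 1) := by
  classical
  have hnn : Nonempty (Fin n) := ⟨⟨0, hn⟩⟩
  have hKS' : K ⊆ punct := fun x hx => hKS x hx
  obtain ⟨D, B, C, hC, h⟩ := stdK σ σ (fun _ => rfl) (fun _ : Fin n => fun (i : Fin 3) (x : ℂ) => three x i)
    (fun _ : Unit => Real.pi) (fun _ => punct) (fun _ => K) (fun _ => punct_preconn) (fun _ => hKS') (fun _ => hK)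
    (fun _ => three_an) (fun _ => three_ind) goodXi_pi d A ε hε
  have hsub : ∀ T, Exc σ n d K A B T ⊆
      ExcK σ (fun _ : Fin n => fun (i : Fin 3) (x : ℂ) => three x i) (fun _ : Unit => Real.pi) (fun _ => K) d A B T := by
    rintro T t ⟨ht, P, hP0, hPd, hPc, hPs⟩
    refine ExcK_of_rename (Equiv.optionEquivSumPUnit (Fin n × Fin 3)) σ _ _ _ d A B T t ht (num σ t) ?_ P hP0
      hPd hPc hPs
    intro w
    cases w with
    | none => simp [num]
    | some w => simp [num]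
  obtain ⟨C', hC'⟩ := finish hn ε D C hC (fun T => Exc σ n d K A B T) (fun T _ t ht j => (ht.1 j).2)
    (fun T hT => (h T hT).mono le_rfl le_rfl (hsub T))
  exact ⟨D, B, C', hC'⟩

end Pool.Agent.Y771.JQ
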